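import Mathlib

/-!
# MT100, module ELI: elimination (Lemma E of section 2)
-/

open scoped BigOperators
open Matrix

noncomputable section

namespace Pool.Agent.MT100.H63

/-- a nonzero maximal minor -/
theorem minor {K N : Type} [Field K] [Fintype N] {k : ℕ} (v : Fin k → N → K)
    (hv : LinearIndependent K v) :
    ∃ s : Fin k → N, (Matrix.of fun i j => v i (s j)).det ≠ 0 := by
  classical
  let A : Matrix (Fin k) N K := Matrix.of v
  have hr : A.rank = k := by
    have h : LinearIndependent K A.row := hv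
    simpa using h.rank_matrix
  obtain ⟨κ, a, ha, hs, hl⟩ := exists_linearIndependent' K A.col
  haveI : Finite κ := Finite.of_injective a ha
  haveI : Fintype κ := Fintype.ofFinite κ
  have hc : Fintype.card κ = k := by
    rw [← hr, Matrix.rank_eq_finrank_span_cols, ← hs]
    exact (finrank_span_eq_card hl).symm
  let e : Fin k ≃ κ := (finCongr hc.symm).trans (Fintype.equivFin κ).symm
  refine ⟨fun j => a (e j), ?_⟩
  have h1 : LinearIndependent K fun j => A.col (a (e j)) := hl.comp e e.injective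
  have h2 : LinearIndependent K (Matrix.of fun i j => v i (a (e j))).col := h1
  have h3 := Matrix.linearIndependent_cols_iff_isUnit.1 h2
  exact ((Matrix.isUnit_iff_isUnit_det _).1 h3).ne_zero

/-- if a minor is not zero the rows are linearly independent -/
theorem indep {K N : Type} [Field K] {k : ℕ} (v : Fin k → N → K) (s : Fin k → N)
    (h : (Matrix.of fun i j => v i (s j)).det ≠ 0) : LinearIndependent K v := by
  rw [Fintype.linearIndependent_iff]
  intro g hg
  have h1 : g ᵥ* (Matrix.of fun i j => v i (s j)) = 0 := by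
    funext j
    have h2 := congrFun hg (s j)
    simp only [Finset.sum_apply, Pi.smul_apply, smul_eq_mul, Pi.zero_apply] at h2
    simpa [Matrix.vecMul, dotProduct] using h2
  have h3 := Matrix.eq_zero_of_vecMul_eq_zero h h1
  exact fun i => congrFun h3 i

section minors

variable {ι : Type} [Fintype ι] [DecidableEq ι]

/-- the coefficients of the minor as a multilinear form -/
def mc {k : ℕ} (q : ℕ → ι → ℚ) (s : Fin k → ι × ι) (a : Fin k → ι) : ℚ :=
  ∑ σ ∈ (Finset.univ : Finset (Equiv.Perm (Fin k))).filter (fun σ => (fun i => (s (σ i)).2) = a),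
    ((Equiv.Perm.sign σ : ℤ) : ℚ) * ∏ i : Fin k, q i (s (σ i)).1

theorem det_eq {k : ℕ} (q : ℕ → ι → ℚ) (s : Fin k → ι × ι) (y : Fin k → ι → ℂ) :
    (Matrix.of fun i j : Fin k => (q i (s j).1 : ℂ) * y i (s j).2).det =
      ∑ a : Fin k → ι, (mc q s a : ℂ) * ∏ i, y i (a i) := by
  rw [← Matrix.det_transpose, Matrix.det_apply']
  rw [← Finset.sum_fiberwise (s := (Finset.univ : Finset (Equiv.Perm (Fin k))))
    (g := fun σ => (fun i => (s (σ i)).2))]
  refine Finset.sum_congr rfl fun a _ => ?_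
  unfold mc
  push_cast
  rw [Finset.sum_mul]
  refine Finset.sum_congr rfl fun σ hσ => ?_
  have h := (Finset.mem_filter.1 hσ).2
  simp only [Matrix.transpose_apply, Matrix.of_apply]
  rw [Finset.prod_mul_distrib, mul_assoc]
  congr 2
  refine Finset.prod_congr rfl fun i _ => ?_
  rw [← h]

/-- **Lemma E.** -/
theorem eli (J : ℕ) (hJ : Fintype.card ι ^ 2 < J) (q : ℕ → ι → ℚ) (hq : ∀ i < J, q i ≠ 0)
    (M : Matrix ι ι ℂ) (hM : M.det ≠ 0) (x : ℕ → ι → ℂ)
    (h : ∀ i < J, (fun a => (q i a : ℂ)) ⬝ᵥ (M *ᵥ x i) = 0) :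
    ∃ k ≤ Fintype.card ι ^ 2, ∃ c : (Fin k → ι) → ℚ, c ≠ 0 ∧
      ∑ a, (c a : ℂ) * ∏ i : Fin k, x i (a i) = 0 := by
  classical
  let v : ℕ → (ι → ℂ) → ι × ι → ℂ := fun i y ab => (q i ab.1 : ℂ) * y ab.2
  let P : ℕ → Prop := fun k => ∃ y : Fin k → ι → ℂ, LinearIndependent ℂ fun i : Fin k => v i (y i)
  have hP : ∀ k, P k → k ≤ Fintype.card ι ^ 2 := by
    rintro k ⟨y, hy⟩
    have h1 := hy.fintype_card_le_finrank
    simpa [sq] using h1
  have hP0 : P 0 := ⟨fun i => i.elim0, linearIndependent_empty_type⟩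
  obtain ⟨k, hk, hk1⟩ : ∃ k, P k ∧ ¬ P (k + 1) := by
    by_contra hcon
    push Not at hcon
    have hall : ∀ k, P k := fun k => Nat.rec hP0 (fun n hn => hcon n hn) k
    have := hP _ (hall (Fintype.card ι ^ 2 + 1))
    omega
  have hkm := hP k hk
  refine ⟨k, hkm, ?_⟩
  obtain ⟨y, hy⟩ := hk
  obtain ⟨s, hs⟩ := minor _ hy
  have hs1 : (Matrix.of fun i j : Fin k => (q i (s j).1 : ℂ) * y i (s j).2).det ≠ 0 := hs
  refine ⟨mc q s, ?_, ?_⟩
  · intro h0
    apply hs1
    rw [det_eq, h0]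
    simp
  · rw [← det_eq q s (fun i => x i)]
    by_contra hx
    have hin : LinearIndependent ℂ fun i : Fin k => v i (x i) := indep _ s hx
    have hspan : ∀ y' : ι → ℂ, v k y' ∈ Submodule.span ℂ (Set.range fun i : Fin k => v i (x i)) := by
      intro y'
      by_contra hn
      apply hk1
      refine ⟨Fin.snoc (fun i : Fin k => x i) y', ?_⟩
      have h1 := linearIndependent_finSnoc.2 ⟨hin, hn⟩
      have h2 : (fun i : Fin (k + 1) => v i (Fin.snoc (α := fun _ => ι → ℂ)
          (fun i : Fin k => x i) y' i)) =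
          Fin.snoc (α := fun _ => ι × ι → ℂ) (fun i : Fin k => v i (x i)) (v k y') := by
        funext i
        refine Fin.lastCases ?_ (fun j => ?_) i
        · simp
        · simp
      rw [h2]
      exact h1
    let Λ : (ι × ι → ℂ) →ₗ[ℂ] ℂ :=
      { toFun := fun A => ∑ ab : ι × ι, A ab * M ab.1 ab.2
        map_add' := fun A B => by simp [add_mul, Finset.sum_add_distrib]
        map_smul' := fun c A => by simp [Finset.mul_sum, mul_assoc] }
    have hΛ : ∀ i z, Λ (v i z) = (fun a => (q i a : ℂ)) ⬝ᵥ (M *ᵥ z) := by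
      intro i z
      change ∑ ab : ι × ι, ((q i ab.1 : ℂ) * z ab.2) * M ab.1 ab.2 = _
      rw [Fintype.sum_prod_type]
      simp only [dotProduct, Matrix.mulVec, Finset.mul_sum]
      refine Finset.sum_congr rfl fun a _ => Finset.sum_congr rfl fun b _ => ?_
      ring
    have hker : Submodule.span ℂ (Set.range fun i : Fin k => v i (x i)) ≤ LinearMap.ker Λ := by
      rw [Submodule.span_le]
      rintro _ ⟨i, rfl⟩
      rw [SetLike.mem_coe, LinearMap.mem_ker, hΛ]
      exact h i (by omega)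
    have hz : ∀ y', (fun a => (q k a : ℂ)) ⬝ᵥ (M *ᵥ y') = 0 := by
      intro y'
      rw [← hΛ]
      exact LinearMap.mem_ker.1 (hker (hspan y'))
    have hz2 : (fun a => (q k a : ℂ)) ᵥ* M = 0 := by
      apply dotProduct_eq_zero
      intro w
      rw [← Matrix.dotProduct_mulVec]
      exact hz w
    have hz3 := Matrix.eq_zero_of_vecMul_eq_zero hM hz2
    apply hq k (by omega)
    funext a
    have := congrFun hz3 a
    simpa using this

/-- Lemma E for finite sequences. -/
theorem eli_fin (J : ℕ) (hJ : Fintype.card ι ^ 2 < J) (q : Fin J → ι → ℚ) (hq : ∀ i, q i ≠ 0)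
    (M : Matrix ι ι ℂ) (hM : M.det ≠ 0) (x : Fin J → ι → ℂ)
    (h : ∀ i, (fun a => (q i a : ℂ)) ⬝ᵥ (M *ᵥ x i) = 0) :
    ∃ (k : ℕ) (hk : k ≤ J), k ≤ Fintype.card ι ^ 2 ∧ ∃ c : (Fin k → ι) → ℚ, c ≠ 0 ∧
      ∑ a, (c a : ℂ) * ∏ i : Fin k, x (Fin.castLE hk i) (a i) = 0 := by
  obtain ⟨k, hk, c, hc, hs⟩ := eli J hJ (fun i => if hi : i < J then q ⟨i, hi⟩ else 0)
    (fun i hi => by simpa [hi] using hq ⟨i, hi⟩) M hM
    (fun i => if hi : i < J then x ⟨i, hi⟩ else 0)
    (fun i hi => by simpa [hi] using h ⟨i, hi⟩)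
  refine ⟨k, by omega, hk, c, hc, ?_⟩
  rw [← hs]
  refine Finset.sum_congr rfl fun a _ => ?_
  congr 1
  refine Finset.prod_congr rfl fun i _ => ?_
  have hi : (i : ℕ) < J := lt_of_lt_of_le i.2 (by omega)
  simp only [hi, dif_pos]
  rfl

end minors

end Pool.Agent.MT100.H63
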