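import Pool.Agent.Helper63_MT100.Eli
import Pool.Agent.MT100.Stmts

/-!
# MT100, module ELI in the form of the statements file
-/

open scoped BigOperators
open Matrix

noncomputable section

namespace Pool.Agent.MT100.H63

theorem eliStmt : EliStmt := by
  intro m _ _ J q MM x hq hM hJ h
  obtain ⟨k, hk, -, c, hc, hs⟩ := eli_fin J hJ q hq MM hM.ne_zero x (fun i => by
    rw [← h i]
    simp only [dotProduct, Matrix.mulVec, Finset.mul_sum, mul_assoc])
  exact ⟨k, hk, c, hc, hs⟩

end Pool.Agent.MT100.H63
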